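import Mathlib

set_option autoImplicit false

open Complex Metric Set Filter Topology MeasureTheory Real
open scoped ENNReal

namespace Pool.Agent.H7.Forc

/-- on a circle -/
lemma circle_ineq {h : ℂ → ℂ} {z : ℂ} {ρ r : ℝ} (hρ : 0 < ρ) (hρr : ρ < r)
    (hh : DifferentiableOn ℂ h (ball z r)) :
    ENNReal.ofReal (2 * π * ‖h z‖ ^ 2) ≤
      ∫⁻ θ in Ioo (-π) π, ENNReal.ofReal (‖h (circleMap z ρ θ)‖ ^ 2) := by
  have hsub : closedBall z ρ ⊆ ball z r := closedBall_subset_ball hρr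
  have hd : DiffContOnCl ℂ (fun w => h w ^ 2) (ball z |ρ|) := by
    rw [abs_of_pos hρ]
    refine DifferentiableOn.diffContOnCl ?_
    rw [closure_ball z hρ.ne']
    exact (hh.mono hsub).pow 2
  have h1 : circleAverage (fun w => h w ^ 2) z ρ = h z ^ 2 := hd.circleAverage
  have hmem : ∀ θ, circleMap z ρ θ ∈ ball z r := fun θ => hsub (circleMap_mem_closedBall z hρ.le θ)
  have hcont : Continuous (fun θ => h (circleMap z ρ θ)) :=
    hh.continuousOn.comp_continuous (continuous_circleMap z ρ) hmem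
  have h2 : ((2 * π : ℝ) : ℂ) * h z ^ 2 = ∫ θ in (0:ℝ)..(2 * π), h (circleMap z ρ θ) ^ 2 := by
    rw [← h1, circleAverage_def]
    rw [Complex.real_smul]
    push_cast
    have : (π : ℂ) ≠ 0 := by exact_mod_cast Real.pi_ne_zero
    field_simp
  have h3 : 2 * π * ‖h z‖ ^ 2 ≤ ∫ θ in (0:ℝ)..(2 * π), ‖h (circleMap z ρ θ)‖ ^ 2 := by
    have e : 2 * π * ‖h z‖ ^ 2 = ‖((2 * π : ℝ) : ℂ) * h z ^ 2‖ := by
      rw [norm_mul, norm_pow, Complex.norm_real, Real.norm_eq_abs, abs_of_pos Real.two_pi_pos]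
    rw [e, h2]
    refine (intervalIntegral.norm_integral_le_integral_norm (by positivity)).trans (le_of_eq ?_)
    simp only [norm_pow]
  have hper : Function.Periodic (fun θ => ‖h (circleMap z ρ θ)‖ ^ 2) (2 * π) := by
    intro θ
    simp only
    rw [periodic_circleMap z ρ θ]
  have h4 : ∫ θ in (0:ℝ)..(2 * π), ‖h (circleMap z ρ θ)‖ ^ 2 =
      ∫ θ in (-π)..π, ‖h (circleMap z ρ θ)‖ ^ 2 := by
    have := hper.intervalIntegral_add_eq 0 (-π)
    rw [zero_add] at this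
    rw [this]
    congr 1
    ring
  rw [h4, intervalIntegral.integral_of_le (by linarith [Real.pi_pos]), integral_Ioc_eq_integral_Ioo] at h3
  have hint : IntegrableOn (fun θ => ‖h (circleMap z ρ θ)‖ ^ 2) (Ioo (-π) π) :=
    ((hcont.norm.pow 2).continuousOn.integrableOn_compact isCompact_Icc).mono_set Ioo_subset_Icc_self
  rw [← ofReal_integral_eq_lintegral_ofReal hint (ae_of_all _ fun θ => by positivity)]
  exact ENNReal.ofReal_le_ofReal h3

lemma area_mean {h : ℂ → ℂ} {z : ℂ} {r : ℝ} (hr : 0 < r) (hh : DifferentiableOn ℂ h (ball z r)) :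
    ENNReal.ofReal (‖h z‖ ^ 2 * r ^ 2) ≤ ∫⁻ w in ball z r, ENNReal.ofReal (‖h w‖ ^ 2) := by
  let F : ℂ → ℝ≥0∞ := fun w => ENNReal.ofReal (‖h w‖ ^ 2)
  let G : ℂ → ℝ≥0∞ := (ball (0:ℂ) r).indicator (fun w => F (z + w))
  have e1 : ∫⁻ w in ball z r, F w = ∫⁻ w, G w := by
    rw [← lintegral_indicator measurableSet_ball]
    rw [← lintegral_add_left_eq_self _ z]
    congr 1
    funext w
    simp only [G, Set.indicator]
    have : z + w ∈ ball z r ↔ w ∈ ball (0:ℂ) r := by simp [mem_ball, dist_eq_norm]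
    by_cases hw : w ∈ ball (0:ℂ) r
    · rw [if_pos (this.2 hw), if_pos hw]
    · rw [if_neg (fun h => hw (this.1 h)), if_neg hw]
  have hpt : ∀ p : ℝ × ℝ, Complex.polarCoord.symm p = p.1 * Complex.exp (p.2 * Complex.I) := by
    intro p
    rw [Complex.polarCoord_symm_apply, Complex.exp_mul_I]
    push_cast
    ring
  have e2 : ∫⁻ p in Ioo 0 r ×ˢ Ioo (-π) π, ENNReal.ofReal p.1 * F (circleMap z p.1 p.2) ≤ ∫⁻ w, G w := by
    rw [← Complex.lintegral_comp_polarCoord_symm]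
    have hsub : (Ioo 0 r ×ˢ Ioo (-π) π : Set (ℝ × ℝ)) ⊆ polarCoord.target := by
      rw [polarCoord_target]
      exact prod_mono (fun x hx => hx.1) subset_rfl
    refine le_trans (le_of_eq ?_) (lintegral_mono_set hsub)
    refine setLIntegral_congr_fun (measurableSet_Ioo.prod measurableSet_Ioo) ?_
    intro p hp
    simp only [smul_eq_mul]
    congr 1
    simp only [G, Set.indicator, hpt]
    have : (p.1 : ℂ) * Complex.exp (p.2 * Complex.I) ∈ ball (0:ℂ) r := by
      rw [mem_ball, dist_zero_right, norm_mul, Complex.norm_exp_ofReal_mul_I, mul_one,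
        Complex.norm_real, Real.norm_eq_abs, abs_of_pos hp.1.1]
      exact hp.1.2
    rw [if_pos this]
    rfl
  have hcm : Continuous (fun p : ℝ × ℝ => circleMap z p.1 p.2) := by
    unfold circleMap
    fun_prop
  have e3 : ∫⁻ p in Ioo 0 r ×ˢ Ioo (-π) π, ENNReal.ofReal p.1 * F (circleMap z p.1 p.2) =
      ∫⁻ ρ in Ioo 0 r, ∫⁻ θ in Ioo (-π) π, ENNReal.ofReal ρ * F (circleMap z ρ θ) := by
    rw [Measure.volume_eq_prod, setLIntegral_prod]
    have hcont : ContinuousOn (fun p : ℝ × ℝ => ‖h (circleMap z p.1 p.2)‖ ^ 2)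
        (Ioo 0 r ×ˢ Ioo (-π) π) := by
      refine (ContinuousOn.norm ?_).pow 2
      refine hh.continuousOn.comp hcm.continuousOn ?_
      intro p hp
      have : circleMap z p.1 p.2 ∈ closedBall z p.1 := circleMap_mem_closedBall z hp.1.1.le p.2
      exact closedBall_subset_ball hp.1.2 this
    have hae : AEMeasurable (fun p : ℝ × ℝ => ‖h (circleMap z p.1 p.2)‖ ^ 2)
        ((volume.prod volume).restrict (Ioo 0 r ×ˢ Ioo (-π) π)) :=
      hcont.aemeasurable (measurableSet_Ioo.prod measurableSet_Ioo)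
    exact (measurable_fst.ennreal_ofReal.aemeasurable).mul hae.ennreal_ofReal
  have e4 : ∫⁻ ρ in Ioo 0 r, ENNReal.ofReal ρ * ENNReal.ofReal (2 * π * ‖h z‖ ^ 2) ≤
      ∫⁻ ρ in Ioo 0 r, ∫⁻ θ in Ioo (-π) π, ENNReal.ofReal ρ * F (circleMap z ρ θ) := by
    refine setLIntegral_mono' measurableSet_Ioo ?_
    intro ρ hρ
    rw [lintegral_const_mul' _ _ ENNReal.ofReal_ne_top]
    gcongr
    exact circle_ineq hρ.1 hρ.2 hh
  have e5 : ∫⁻ ρ in Ioo 0 r, ENNReal.ofReal ρ * ENNReal.ofReal (2 * π * ‖h z‖ ^ 2) =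
      ENNReal.ofReal (r ^ 2 / 2 * (2 * π * ‖h z‖ ^ 2)) := by
    rw [lintegral_mul_const' _ _ ENNReal.ofReal_ne_top, ENNReal.ofReal_mul (p := r ^ 2 / 2) (by positivity)]
    congr 1
    have hint : IntegrableOn (fun ρ : ℝ => ρ) (Ioo 0 r) :=
      (continuous_id.continuousOn.integrableOn_compact isCompact_Icc).mono_set Ioo_subset_Icc_self
    rw [← ofReal_integral_eq_lintegral_ofReal hint
      (by
        refine (ae_restrict_iff' measurableSet_Ioo).2 (ae_of_all _ fun x hx => ?_)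
        exact hx.1.le)]
    rw [← integral_Ioc_eq_integral_Ioo, ← intervalIntegral.integral_of_le hr.le, integral_id]
    congr 1
    ring
  have e6 : ‖h z‖ ^ 2 * r ^ 2 ≤ r ^ 2 / 2 * (2 * π * ‖h z‖ ^ 2) := by
    have : 1 ≤ π := by linarith [Real.two_le_pi]
    have h0 : 0 ≤ ‖h z‖ ^ 2 * r ^ 2 := by positivity
    nlinarith
  calc ENNReal.ofReal (‖h z‖ ^ 2 * r ^ 2) ≤ ENNReal.ofReal (r ^ 2 / 2 * (2 * π * ‖h z‖ ^ 2)) :=
        ENNReal.ofReal_le_ofReal e6
    _ = ∫⁻ ρ in Ioo 0 r, ENNReal.ofReal ρ * ENNReal.ofReal (2 * π * ‖h z‖ ^ 2) := e5.symm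
    _ ≤ _ := e4
    _ = _ := e3.symm
    _ ≤ _ := e2
    _ = _ := e1.symm

lemma energy_eq {g : ℂ → ℂ} {s H : Set ℂ} (hH : IsOpen H) (hs : MeasurableSet s) (hsH : s ⊆ H)
    (hg : DifferentiableOn ℂ g H) (hinj : InjOn g H) :
    ∫⁻ w in s, ENNReal.ofReal (‖deriv g w‖ ^ 2) = volume (g '' s) := by
  rw [← lintegral_abs_det_fderiv_eq_addHaar_image volume hs
    (f' := fun w => (ContinuousLinearMap.restrictScalars ℝ
      (ContinuousLinearMap.toSpanSingleton ℂ (deriv g w) : ℂ →L[ℂ] ℂ))) ?_ (hinj.mono hsH)]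
  · refine lintegral_congr fun w => ?_
    congr 1
    have : (ContinuousLinearMap.restrictScalars ℝ
      (ContinuousLinearMap.toSpanSingleton ℂ (deriv g w) : ℂ →L[ℂ] ℂ)).det = ‖deriv g w‖ ^ 2 := by
      simp [ContinuousLinearMap.det, LinearMap.det_restrictScalars,
        Algebra.norm_complex_eq, Complex.normSq_eq_norm_sq]
    rw [this, abs_of_nonneg (by positivity)]
  · intro w hw
    have h1 : HasDerivAt g (deriv g w) w := (hg.differentiableAt (hH.mem_nhds (hsH hw))).hasDerivAt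
    exact (h1.hasFDerivAt.restrictScalars ℝ).hasFDerivWithinAt

end Pool.Agent.H7.Forc
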