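import Pool.Agent.H7.Forc.Area

set_option autoImplicit false

open Complex Metric Set Filter Topology MeasureTheory Real
open scoped ENNReal

namespace Pool.Agent.H7.Forc

def HH : Set ℂ := {z | 0 < z.im}

lemma isOpen_HH : IsOpen HH := isOpen_lt continuous_const continuous_im

noncomputable def en (g : ℂ → ℂ) (s : Set ℂ) : ℝ≥0∞ := ∫⁻ w in s, ENNReal.ofReal (‖deriv g w‖ ^ 2)

lemma en_mono {g : ℂ → ℂ} {s t : Set ℂ} (h : s ⊆ t) : en g s ≤ en g t := lintegral_mono_set h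

lemma deriv_bound {g : ℂ → ℂ} (hg : DifferentiableOn ℂ g HH) {s : Set ℂ} {z : ℂ} {r e : ℝ}
    (hr : 0 < r) (hs : s ⊆ HH) (hb : ball z r ⊆ s) (he : 0 ≤ e) (hen : en g s ≤ ENNReal.ofReal e) :
    ‖deriv g z‖ ≤ √e / r := by
  have h1 : DifferentiableOn ℂ (deriv g) (ball z r) := (hg.deriv isOpen_HH).mono (hb.trans hs)
  have h2 := (area_mean hr h1).trans ((en_mono (g := g) hb).trans hen)
  rw [ENNReal.ofReal_le_ofReal_iff he] at h2
  rw [le_div_iff₀ hr]
  apply Real.le_sqrt_of_sq_le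
  rw [mul_pow]
  exact h2

lemma osc {g : ℂ → ℂ} (hg : DifferentiableOn ℂ g HH) {s : Set ℂ} {p q : ℂ} {r e : ℝ}
    (hr : 0 < r) (hs : s ⊆ HH) (hb : ∀ z ∈ segment ℝ p q, ball z r ⊆ s) (he : 0 ≤ e)
    (hen : en g s ≤ ENNReal.ofReal e) :
    ‖g q - g p‖ ≤ √e / r * ‖q - p‖ := by
  refine Convex.norm_image_sub_le_of_norm_deriv_le (𝕜 := ℂ) (s := segment ℝ p q) ?_ ?_
    (convex_segment p q) (left_mem_segment ℝ p q) (right_mem_segment ℝ p q)
  · intro z hz
    exact hg.differentiableAt (isOpen_HH.mem_nhds (hs (hb z hz (mem_ball_self hr))))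
  · intro z hz
    exact deriv_bound hg hr hs (hb z hz) he hen

def col (a w : ℝ) : Set ℂ := {z | a < z.re ∧ z.re < a + w ∧ 0 < z.im ∧ z.im < 2}

lemma col_sub (a w : ℝ) : col a w ⊆ HH := fun _ hz => hz.2.2.1

lemma isOpen_col (a w : ℝ) : IsOpen (col a w) :=
  (isOpen_lt continuous_const continuous_re).inter
    ((isOpen_lt continuous_re continuous_const).inter
      ((isOpen_lt continuous_const continuous_im).inter (isOpen_lt continuous_im continuous_const)))

noncomputable def pt (a w : ℝ) : ℂ := ⟨a + w / 2, w⟩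

lemma seg_coord {p q z : ℂ} (hz : z ∈ segment ℝ p q) :
    ∃ t : ℝ, 0 ≤ t ∧ t ≤ 1 ∧ z.re = (1 - t) * p.re + t * q.re ∧ z.im = (1 - t) * p.im + t * q.im := by
  obtain ⟨a, b, ha, hb, hab, rfl⟩ := hz
  refine ⟨b, hb, by linarith, ?_, ?_⟩
  · have : a = 1 - b := by linarith
    simp [this]
  · have : a = 1 - b := by linarith
    simp [this]

lemma ball_coord {z w : ℂ} {r : ℝ} (hw : w ∈ ball z r) :
    |w.re - z.re| < r ∧ |w.im - z.im| < r := by
  rw [mem_ball, dist_eq_norm] at hw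
  have h1 := Complex.abs_re_le_norm (w - z)
  have h2 := Complex.abs_im_le_norm (w - z)
  simp only [sub_re, sub_im] at h1 h2
  exact ⟨h1.trans_lt hw, h2.trans_lt hw⟩

lemma half {g : ℂ → ℂ} (hg : DifferentiableOn ℂ g HH) {a w E : ℝ} (hw : 0 < w) (hw1 : w ≤ 1)
    (hE : 0 ≤ E) (hen : en g (col a w) ≤ ENNReal.ofReal (w * E)) :
    ∃ a' : ℝ, (a' = a ∨ a' = a + w / 2) ∧ en g (col a' (w / 2)) ≤ ENNReal.ofReal (w / 2 * E) ∧
      ‖g (pt a' (w / 2)) - g (pt a w)‖ ≤ 3 * √(w * E) := by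
  have hdisj : Disjoint (col a (w / 2)) (col (a + w / 2) (w / 2)) := by
    rw [Set.disjoint_left]
    intro z h1 h2
    have := h1.2.1
    have := h2.1
    linarith
  have hsum : en g (col a (w / 2)) + en g (col (a + w / 2) (w / 2)) ≤ en g (col a w) := by
    unfold en
    rw [← lintegral_union (isOpen_col _ _).measurableSet hdisj]
    apply lintegral_mono_set
    rintro z (h | h)
    · exact ⟨h.1, by linarith [h.2.1], h.2.2⟩
    · exact ⟨by linarith [h.1], by linarith [h.2.1], h.2.2⟩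
  have hchoose : ∃ a' : ℝ, (a' = a ∨ a' = a + w / 2) ∧
      en g (col a' (w / 2)) ≤ ENNReal.ofReal (w / 2 * E) := by
    by_contra hcon
    push Not at hcon
    have h1 := hcon a (Or.inl rfl)
    have h2 := hcon (a + w / 2) (Or.inr rfl)
    have h3 := ENNReal.add_lt_add h1 h2
    rw [← ENNReal.ofReal_add (by positivity) (by positivity)] at h3
    have h4 : w / 2 * E + w / 2 * E = w * E := by ring
    rw [h4] at h3
    exact absurd (h3.trans_le (hsum.trans hen)) (lt_irrefl _)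
  obtain ⟨a', ha', hen'⟩ := hchoose
  refine ⟨a', ha', hen', ?_⟩
  have hb : ∀ z ∈ segment ℝ (pt a w) (pt a' (w / 2)), ball z (w / 4) ⊆ col a w := by
    intro z hz v hv
    obtain ⟨t, ht0, ht1, hre, him⟩ := seg_coord hz
    obtain ⟨h1, h2⟩ := ball_coord hv
    simp only [pt] at hre him
    rw [abs_lt] at h1 h2
    have htw : 0 ≤ t * w := by positivity
    have htw1 : t * w ≤ w := by nlinarith
    rcases ha' with rfl | rfl
    · exact ⟨by nlinarith, by nlinarith, by nlinarith, by nlinarith⟩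
    · exact ⟨by nlinarith, by nlinarith, by nlinarith, by nlinarith⟩
  have h5 := osc hg (by positivity) (col_sub a w) hb (by positivity) hen
  refine h5.trans ?_
  have h6 : ‖pt a' (w / 2) - pt a w‖ ≤ 3 / 4 * w := by
    refine (Complex.norm_le_abs_re_add_abs_im _).trans ?_
    simp only [pt, sub_re, sub_im]
    rcases ha' with rfl | rfl
    · have e1 : a' + w / 2 / 2 - (a' + w / 2) = -(w / 4) := by ring
      have e2 : w / 2 - w = -(w / 2) := by ring
      rw [e1, e2, abs_neg, abs_neg, abs_of_pos (by positivity), abs_of_pos (by positivity)]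
      linarith
    · have e1 : a + w / 2 + w / 2 / 2 - (a + w / 2) = w / 4 := by ring
      have e2 : w / 2 - w = -(w / 2) := by ring
      rw [e1, e2, abs_neg, abs_of_pos (by positivity), abs_of_pos (by positivity)]
      linarith
  calc √(w * E) / (w / 4) * ‖pt a' (w / 2) - pt a w‖ ≤ √(w * E) / (w / 4) * (3 / 4 * w) := by gcongr
    _ = 3 * √(w * E) := by field_simp

lemma chain {g : ℂ → ℂ} (hg : DifferentiableOn ℂ g HH) {E : ℝ}
    (hE : 0 ≤ E) (hen : en g (col 1 1) ≤ ENNReal.ofReal E) (J : ℕ) :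
    ∃ k : ℕ, k < 2 ^ J ∧ en g (col (1 + k * (1 / 2 ^ J)) (1 / 2 ^ J)) ≤ ENNReal.ofReal (1 / 2 ^ J * E) ∧
      ‖g (pt (1 + k * (1 / 2 ^ J)) (1 / 2 ^ J)) - g (pt 1 1)‖ ≤ 12 * √E * (1 - √(1 / 2 ^ J)) := by
  induction J with
  | zero => exact ⟨0, by norm_num, by simpa using hen, by simp⟩
  | succ J ih =>
    obtain ⟨k, hk, h1, h2⟩ := ih
    set w : ℝ := 1 / 2 ^ J with hw
    have hw0 : 0 < w := by positivity
    have hw1 : w ≤ 1 := by
      rw [hw, div_le_one (by positivity)]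
      exact one_le_pow₀ (by norm_num)
    have hw2 : (1 : ℝ) / 2 ^ (J + 1) = w / 2 := by rw [hw, pow_succ]; field_simp
    obtain ⟨a', ha', h3, h4⟩ := half hg hw0 hw1 hE h1
    rw [hw2]
    have hest : ‖g (pt a' (w / 2)) - g (pt 1 1)‖ ≤ 12 * √E * (1 - √(w / 2)) := by
      have e1 : √(w * E) = √w * √E := Real.sqrt_mul hw0.le E
      have e2 : √(w / 2) ≤ 3 / 4 * √w := by
        rw [Real.sqrt_le_left (by positivity), mul_pow, Real.sq_sqrt hw0.le]
        linarith
      rw [e1] at h4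
      have e3 : ‖g (pt a' (w / 2)) - g (pt 1 1)‖ ≤ ‖g (pt a' (w / 2)) - g (pt (1 + k * w) w)‖ +
          ‖g (pt (1 + k * w) w) - g (pt 1 1)‖ := norm_sub_le_norm_sub_add_norm_sub _ _ _
      have hE0 := Real.sqrt_nonneg E
      have hw00 := Real.sqrt_nonneg w
      nlinarith
    rcases ha' with ha' | ha'
    · refine ⟨2 * k, by rw [pow_succ]; omega, ?_, ?_⟩
      · have : (1 : ℝ) + ((2 * k : ℕ) : ℝ) * (w / 2) = a' := by rw [ha']; push_cast; ring
        rw [this]; exact h3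
      · have : (1 : ℝ) + ((2 * k : ℕ) : ℝ) * (w / 2) = a' := by rw [ha']; push_cast; ring
        rw [this]; exact hest
    · refine ⟨2 * k + 1, by rw [pow_succ]; omega, ?_, ?_⟩
      · have : (1 : ℝ) + ((2 * k + 1 : ℕ) : ℝ) * (w / 2) = a' := by rw [ha']; push_cast; ring
        rw [this]; exact h3
      · have : (1 : ℝ) + ((2 * k + 1 : ℕ) : ℝ) * (w / 2) = a' := by rw [ha']; push_cast; ring
        rw [this]; exact hest

/-- the points of `K` at scale one -/
noncomputable def kp (n k : ℕ) : ℂ := ⟨1 + (k + 1 / 2) / 16 ^ n, 1 / 64 ^ n⟩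

lemma toK {g : ℂ → ℂ} (hg : DifferentiableOn ℂ g HH) {E : ℝ}
    (hE : 0 ≤ E) (hen : en g (col 1 1) ≤ ENNReal.ofReal E) (n : ℕ) :
    ∃ k : ℕ, k < 16 ^ n ∧ ‖g (kp n k) - g (pt 1 1)‖ ≤ 14 * √E := by
  obtain ⟨k, hk, h1, h2⟩ := chain hg hE hen (4 * n)
  have h16 : (2 : ℝ) ^ (4 * n) = 16 ^ n := by rw [pow_mul]; norm_num
  have h16' : 2 ^ (4 * n) = 16 ^ n := by rw [pow_mul]; norm_num
  rw [h16] at h1 h2
  rw [h16'] at hk
  refine ⟨k, hk, ?_⟩
  set w : ℝ := 1 / 16 ^ n with hw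
  set y : ℝ := 1 / 64 ^ n with hy
  set q : ℝ := 1 / 4 ^ n with hq
  have hw0 : 0 < w := by positivity
  have hy0 : 0 < y := by positivity
  have hq0 : 0 < q := by positivity
  have hq1 : q ≤ 1 := by
    rw [hq, div_le_one (by positivity)]
    exact one_le_pow₀ (by norm_num)
  have hwq : w = q ^ 2 := by rw [hw, hq, div_pow, one_pow, ← pow_mul, mul_comm, pow_mul]; norm_num
  have hyq : y = q ^ 3 := by rw [hy, hq, div_pow, one_pow, ← pow_mul, mul_comm, pow_mul]; norm_num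
  have hyw : y ≤ w := by rw [hwq, hyq]; nlinarith [sq_nonneg q]
  have hw1 : w ≤ 1 := by rw [hwq]; nlinarith
  have hsw : √w = q := by rw [hwq]; exact Real.sqrt_sq hq0.le
  have hkp : kp n k = ⟨1 + k * w + w / 2, y⟩ := by
    unfold kp
    apply Complex.ext
    · simp only [hw]; field_simp
      ring
    · simp only [hy]
  have hb : ∀ z ∈ segment ℝ (pt (1 + k * w) w) (kp n k), ball z (y / 2) ⊆ col (1 + k * w) w := by
    intro z hz v hv
    obtain ⟨t, ht0, ht1, hre, him⟩ := seg_coord hz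
    obtain ⟨h1, h2⟩ := ball_coord hv
    rw [hkp] at hre him
    simp only [pt] at hre him
    rw [abs_lt] at h1 h2
    have e1 : z.re = 1 + k * w + w / 2 := by rw [hre]; ring
    have e2 : y ≤ z.im := by rw [him]; nlinarith
    have e3 : z.im ≤ w := by rw [him]; nlinarith
    exact ⟨by linarith, by linarith, by linarith, by linarith⟩
  have h5 := osc hg (by positivity) (col_sub _ w) hb (by positivity) h1
  have h6 : ‖kp n k - pt (1 + k * w) w‖ ≤ w := by
    refine (Complex.norm_le_abs_re_add_abs_im _).trans ?_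
    rw [hkp]
    simp only [pt, sub_re, sub_im]
    rw [sub_self, abs_zero, zero_add, abs_sub_comm, abs_of_nonneg (by linarith)]
    linarith
  have h7 : ‖g (kp n k) - g (pt (1 + k * w) w)‖ ≤ 2 * √E := by
    refine h5.trans ?_
    calc √(w * E) / (y / 2) * ‖kp n k - pt (1 + k * w) w‖ ≤ √(w * E) / (y / 2) * w := by gcongr
      _ = 2 * √E := by
        rw [Real.sqrt_mul hw0.le, hsw, hwq, hyq]; field_simp
  have h8 : ‖g (kp n k) - g (pt 1 1)‖ ≤ ‖g (kp n k) - g (pt (1 + k * w) w)‖ +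
      ‖g (pt (1 + k * w) w) - g (pt 1 1)‖ := norm_sub_le_norm_sub_add_norm_sub _ _ _
  have h9 : 12 * √E * (1 - √w) ≤ 12 * √E := by
    have := Real.sqrt_nonneg E
    have := Real.sqrt_nonneg w
    nlinarith
  linarith

lemma lemB {g : ℂ → ℂ} (hg : DifferentiableOn ℂ g HH) {E c : ℝ} (hc : 0 < c) (hc1 : c ≤ 1)
    (hE : 0 ≤ E) (hen : en g (HH ∩ ball 0 4) ≤ ENNReal.ofReal E) {w : ℂ} (hw : ‖w‖ ≤ 2)
    (hwc : c ≤ w.im) : ‖g w - g (pt 1 1)‖ ≤ 8 / c * √E := by
  have hn : ‖pt 1 1‖ ≤ 2 := by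
    rw [← sq_le_sq₀ (norm_nonneg _) (by norm_num), ← Complex.normSq_eq_norm_sq, Complex.normSq_apply]
    simp only [pt]; norm_num
  have hb : ∀ z ∈ segment ℝ (pt 1 1) w, ball z (c / 2) ⊆ HH ∩ ball 0 4 := by
    intro z hz v hv
    have hz2 : ‖z‖ ≤ 2 := by
      have : z ∈ closedBall (0:ℂ) 2 :=
        (convex_closedBall (0:ℂ) 2).segment_subset (by simpa using hn) (by simpa using hw) hz
      simpa using this
    obtain ⟨t, ht0, ht1, hre, him⟩ := seg_coord hz
    obtain ⟨h1, h2⟩ := ball_coord hv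
    simp only [pt] at him
    rw [abs_lt] at h2
    have e2 : c ≤ z.im := by rw [him]; nlinarith
    refine ⟨by simp only [HH, mem_setOf_eq]; linarith, ?_⟩
    rw [mem_ball, dist_eq_norm] at hv
    rw [mem_ball, dist_zero_right]
    have : ‖v‖ ≤ ‖v - z‖ + ‖z‖ := by simpa using norm_add_le (v - z) z
    linarith
  have h5 := osc hg (by positivity) inter_subset_left hb hE hen
  have h6 : ‖w - pt 1 1‖ ≤ 4 := (norm_sub_le _ _).trans (by linarith)
  calc ‖g w - g (pt 1 1)‖ ≤ √E / (c / 2) * ‖w - pt 1 1‖ := h5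
    _ ≤ √E / (c / 2) * 4 := by gcongr
    _ = 8 / c * √E := by field_simp; ring

end Pool.Agent.H7.Forc
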