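import Mathlib

set_option autoImplicit false

open Set Filter Topology MeasureTheory
open scoped UpperHalfPlane

namespace Pool.Agent.H7.Forc

/-- The class `𝓕`: `f` is analytic and univalent on the upper half-plane `H` and maps it into the
unit disc (values off `H` are irrelevant). -/
def InClassF (f : ℂ → ℂ) : Prop :=
  DifferentiableOn ℂ f {z | 0 < z.im} ∧ InjOn f {z | 0 < z.im} ∧
    MapsTo f {z | 0 < z.im} (Metric.ball 0 1)

/-- `f` has angular limit `α` at `0`. -/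
def HasAngularLimit (f : ℂ → ℂ) (α : ℂ) : Prop :=
  ∀ θ : ℝ, 0 < θ → θ < Real.pi / 2 →
    Tendsto f (𝓝[{z | 0 < z.im ∧ θ ≤ z.arg ∧ z.arg ≤ Real.pi - θ}] 0) (𝓝 α)

/-- `K ⊆ H` is forcing: a limit of `f ∈ 𝓕` along `K` at `0` is an angular limit at `0`. -/
def IsForcing (K : Set ℍ) : Prop :=
  ∀ f : ℂ → ℂ, InClassF f → ∀ α : ℂ,
    Tendsto f (𝓝[((↑) : ℍ → ℂ) '' K] 0) (𝓝 α) → HasAngularLimit f α

/-- The set `B'` of moduli of the points at hyperbolic distance less than `l` from `K`. -/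
def radii (l : ℝ) (K : Set ℍ) : Set ℝ := (fun z : ℍ => ‖(z : ℂ)‖) '' Metric.thickening l K

end Pool.Agent.H7.Forc
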