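import Pool.Agent.H7.Forc.Chain
import Pool.Agent.H7.Forc.Defs

set_option autoImplicit false

open Complex Metric Set Filter Topology MeasureTheory Real
open scoped ENNReal UpperHalfPlane

namespace Pool.Agent.H7.Forc

/-- the forcing set -/
def KK : Set ℍ := {z | ∃ n k : ℕ, k < 16 ^ n ∧ (z : ℂ) = (((2 : ℝ) ^ n)⁻¹ : ℝ) * kp n k}

lemma energy_tail {f : ℂ → ℂ} (hf : InClassF f) :
    Tendsto (fun r : ℝ => en f (HH ∩ ball 0 r)) (𝓝 0) (𝓝 0) := by
  obtain ⟨hd, hinj, hmaps⟩ := hf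
  have hfin : ∫⁻ w in HH, ENNReal.ofReal (‖deriv f w‖ ^ 2) ≠ ⊤ := by
    rw [energy_eq isOpen_HH isOpen_HH.measurableSet subset_rfl hd hinj]
    refine ne_top_of_le_ne_top (measure_ball_lt_top (μ := volume) (x := (0:ℂ)) (r := 1)).ne ?_
    exact measure_mono (image_subset_iff.2 hmaps)
  have h1 : Tendsto (fun r : ℝ => (volume.restrict HH) (ball (0:ℂ) r)) (𝓝 0) (𝓝 0) := by
    have h2 : Tendsto (fun r : ℝ => ENNReal.ofReal |r| ^ 2 * (NNReal.pi : ℝ≥0∞)) (𝓝 0) (𝓝 0) := by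
      have h3 : Tendsto (fun r : ℝ => ENNReal.ofReal |r| ^ 2 * (NNReal.pi : ℝ≥0∞)) (𝓝 0)
          (𝓝 (ENNReal.ofReal |0| ^ 2 * (NNReal.pi : ℝ≥0∞))) := by
        refine ENNReal.Tendsto.mul_const ?_ (Or.inr ENNReal.coe_ne_top)
        refine ENNReal.Tendsto.pow ?_
        exact (ENNReal.continuous_ofReal.comp continuous_abs).tendsto 0
      simpa using h3
    refine tendsto_of_tendsto_of_tendsto_of_le_of_le tendsto_const_nhds h2 (fun _ => zero_le) ?_
    intro r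
    refine (Measure.restrict_apply_le _ _).trans ?_
    rw [Complex.volume_ball]
    exact mul_le_mul' (pow_le_pow_left' (ENNReal.ofReal_le_ofReal (le_abs_self r)) 2) le_rfl
  have h2 := tendsto_setLIntegral_zero hfin h1
  refine h2.congr fun r => ?_
  unfold en
  rw [Measure.restrict_restrict measurableSet_ball, inter_comm]

lemma scale {f : ℂ → ℂ} (hf : InClassF f) {lam : ℝ} (hl : 0 < lam) :
    DifferentiableOn ℂ (fun z => f ((lam : ℂ) * z)) HH ∧
      en (fun z => f ((lam : ℂ) * z)) (HH ∩ ball 0 4) ≤ en f (HH ∩ ball 0 (4 * lam)) := by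
  obtain ⟨hd, hinj, hmaps⟩ := hf
  have hm : ∀ z ∈ HH, (lam : ℂ) * z ∈ HH := by
    intro z hz
    simp only [HH, mem_ofPred_eq] at hz ⊢
    rw [im_ofReal_mul]
    positivity
  have hdg : DifferentiableOn ℂ (fun z => f ((lam : ℂ) * z)) HH :=
    hd.comp (by fun_prop) hm
  have hig : InjOn (fun z => f ((lam : ℂ) * z)) HH := by
    intro z hz w hw h
    have := hinj (hm z hz) (hm w hw) h
    have hl' : (lam : ℂ) ≠ 0 := by exact_mod_cast hl.ne'
    exact mul_left_cancel₀ hl' this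
  refine ⟨hdg, ?_⟩
  unfold en
  rw [energy_eq isOpen_HH (isOpen_HH.inter isOpen_ball).measurableSet inter_subset_left hdg hig,
    energy_eq isOpen_HH (isOpen_HH.inter isOpen_ball).measurableSet inter_subset_left hd hinj]
  apply measure_mono
  rintro _ ⟨z, hz, rfl⟩
  refine ⟨(lam : ℂ) * z, ⟨hm z hz.1, ?_⟩, rfl⟩
  have := hz.2
  rw [mem_ball, dist_zero_right] at this ⊢
  rw [norm_mul, Complex.norm_real, Real.norm_eq_abs, abs_of_pos hl]
  nlinarith

lemma kp_norm (n k : ℕ) (hk : k < 16 ^ n) : ‖kp n k‖ ≤ 3 := by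
  refine (Complex.norm_le_abs_re_add_abs_im _).trans ?_
  unfold kp
  simp only
  have h16 : (0:ℝ) < 16 ^ n := by positivity
  have h1 : ((k : ℝ) + 1 / 2) / 16 ^ n ≤ 1 := by
    rw [div_le_one h16]
    have : (k : ℝ) + 1 ≤ 16 ^ n := by exact_mod_cast hk
    linarith
  have h2 : (1 : ℝ) / 64 ^ n ≤ 1 := by
    rw [div_le_one (by positivity)]
    exact one_le_pow₀ (by norm_num)
  rw [abs_of_pos (by positivity), abs_of_pos (by positivity)]
  linarith

theorem KK_forcing : IsForcing KK := by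
  intro f hf α hα θ hθ0 hθ1
  rw [Metric.tendsto_nhdsWithin_nhds] at hα ⊢
  intro ε hε
  set c := Real.sin θ with hc
  have hc0 : 0 < c := Real.sin_pos_of_pos_of_lt_pi hθ0 (by linarith [Real.pi_pos])
  have hc1 : c ≤ 1 := Real.sin_le_one θ
  set A : ℝ := 14 + 8 / c with hA
  have hA0 : 0 < A := by positivity
  set E : ℝ := (ε / (2 * A)) ^ 2 with hE
  have hE0 : 0 < E := by positivity
  have hsE : √E = ε / (2 * A) := Real.sqrt_sq (by positivity)
  obtain ⟨δ₂, hδ₂, h₂⟩ := hα (ε / 2) (by positivity)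
  have htail := (energy_tail hf).eventually_lt_const (ENNReal.ofReal_pos.2 hE0)
  obtain ⟨δ₁, hδ₁, h₁⟩ := Metric.eventually_nhds_iff.1 htail
  refine ⟨min (δ₁ / 4) (min (δ₂ / 4) 1), by positivity, ?_⟩
  intro z hz hzd
  rw [dist_zero_right] at hzd
  have hz1 : ‖z‖ < δ₁ / 4 := hzd.trans_le (min_le_left _ _)
  have hz2 : ‖z‖ < δ₂ / 4 := hzd.trans_le ((min_le_right _ _).trans (min_le_left _ _))
  have hz3 : ‖z‖ < 1 := hzd.trans_le ((min_le_right _ _).trans (min_le_right _ _))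
  have hz0 : z ≠ 0 := by
    rintro rfl
    exact absurd hz.1 (by simp)
  have hzn : 0 < ‖z‖ := norm_pos_iff.2 hz0
  obtain ⟨m, hm1, hm2⟩ := exists_nat_pow_near_of_lt_one hzn hz3.le (by norm_num : (0:ℝ) < 1 / 2)
    (by norm_num : (1:ℝ) / 2 < 1)
  -- scale
  set n := m + 1 with hn
  set lam : ℝ := ((2 : ℝ) ^ n)⁻¹ with hlam
  have hlam0 : 0 < lam := by positivity
  have hl1 : lam < ‖z‖ := by rw [hlam, ← inv_pow]; simpa using hm1
  have hl2 : ‖z‖ ≤ 2 * lam := by
    have : 2 * lam = (1 / 2) ^ m := by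
      rw [hlam, hn, pow_succ, one_div, inv_pow]; field_simp
    rw [this]; exact hm2
  obtain ⟨hdg, heg⟩ := scale hf hlam0
  set g : ℂ → ℂ := fun z => f ((lam : ℂ) * z) with hg
  have heg' : en g (HH ∩ ball 0 4) ≤ ENNReal.ofReal E := by
    refine heg.trans (h₁ ?_).le
    rw [dist_zero_right, Real.norm_eq_abs, abs_of_pos (by positivity)]
    linarith
  have hcolsub : col 1 1 ⊆ HH ∩ ball 0 4 := by
    intro v hv
    refine ⟨hv.2.2.1, ?_⟩
    rw [mem_ball, dist_zero_right]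
    refine (Complex.norm_le_abs_re_add_abs_im v).trans_lt ?_
    rw [abs_of_pos (by linarith [hv.1]), abs_of_pos hv.2.2.1]
    linarith [hv.2.1, hv.2.2.2]
  obtain ⟨k, hk, hkest⟩ := toK hdg hE0.le ((en_mono hcolsub).trans heg') n
  -- the point w = z / lam
  set w : ℂ := ((lam⁻¹ : ℝ) : ℂ) * z with hw
  have hlw : (lam : ℂ) * w = z := by
    rw [hw, ← mul_assoc, ← ofReal_mul, mul_inv_cancel₀ hlam0.ne', ofReal_one, one_mul]
  have hwn : ‖w‖ = lam⁻¹ * ‖z‖ := by
    rw [hw, norm_mul, Complex.norm_real, Real.norm_eq_abs, abs_of_pos (by positivity)]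
  have hw2 : ‖w‖ ≤ 2 := by
    rw [hwn, inv_mul_le_iff₀ hlam0]; linarith
  have hw1 : 1 ≤ ‖w‖ := by
    rw [hwn, le_inv_mul_iff₀ hlam0]; linarith
  have hwc : c ≤ w.im := by
    have h1 : w.im = ‖w‖ * Real.sin z.arg := by
      have : z.im = ‖z‖ * Real.sin z.arg := by rw [Complex.norm_mul_sin_arg]
      rw [hw, im_ofReal_mul, this]
      rw [← hw, hwn]; ring
    have h2 : c ≤ Real.sin z.arg := by
      rcases le_total z.arg (π / 2) with h | h
      · exact Real.sin_le_sin_of_le_of_le_pi_div_two (by linarith) h hz.2.1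
      · rw [← Real.sin_pi_sub z.arg]
        exact Real.sin_le_sin_of_le_of_le_pi_div_two (by linarith) (by linarith) (by linarith [hz.2.2])
    rw [h1]
    nlinarith
  have hB := lemB hdg hc0 hc1 hE0.le heg' hw2 hwc
  have hgw : g w = f z := by simp only [hg]; rw [hlw]
  -- the point of K
  have hKim : 0 < ((lam : ℂ) * kp n k).im := by
    rw [im_ofReal_mul]; unfold kp; positivity
  have hKmem : (lam : ℂ) * kp n k ∈ ((↑) : ℍ → ℂ) '' KK := by
    refine ⟨⟨(lam : ℂ) * kp n k, hKim⟩, ⟨n, k, hk, rfl⟩, rfl⟩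
  have hKd : dist ((lam : ℂ) * kp n k) 0 < δ₂ := by
    rw [dist_zero_right, norm_mul, Complex.norm_real, Real.norm_eq_abs, abs_of_pos hlam0]
    have := kp_norm n k hk
    nlinarith
  have hfin := h₂ hKmem hKd
  rw [dist_eq_norm] at hfin ⊢
  have hgk : g (kp n k) = f ((lam : ℂ) * kp n k) := rfl
  rw [← hgk] at hfin
  rw [← hgw]
  have htri : ‖g w - α‖ ≤ ‖g w - g (pt 1 1)‖ + ‖g (kp n k) - g (pt 1 1)‖ + ‖g (kp n k) - α‖ := by
    have e1 : g w - α = (g w - g (pt 1 1)) - (g (kp n k) - g (pt 1 1)) + (g (kp n k) - α) := by ring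
    rw [e1]
    exact (norm_add_le _ _).trans (add_le_add_left (norm_sub_le _ _) _)
  have hsum : 8 / c * √E + 14 * √E = ε / 2 := by
    rw [hsE, hA]
    have : 8 / c * (ε / (2 * (14 + 8 / c))) + 14 * (ε / (2 * (14 + 8 / c))) =
        (14 + 8 / c) * (ε / (2 * (14 + 8 / c))) := by ring
    rw [this]
    field_simp
  linarith

lemma radii_bound {l : ℝ} (hl : 0 < l) : ∃ C > 0, ∃ r₀ > 0, ∀ r, 0 < r → r < r₀ →
    (volume (radii l KK ∩ Ioo 0 r)).toReal ≤ C * r ^ 2 := by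
  set C : ℝ := Real.exp l - 1 with hC
  have hC0 : 0 < C := by rw [hC]; linarith [Real.add_one_lt_exp hl.ne']
  set q : ℝ := 1 / (2 * C + 2) with hq
  have hq0 : 0 < q := by positivity
  refine ⟨16 * C, by positivity, q ^ 2 / Real.exp l, by positivity, ?_⟩
  intro r hr hr0
  have hrl : r * Real.exp l < q ^ 2 := by rwa [lt_div_iff₀ (Real.exp_pos l)] at hr0
  let T : ℕ → Set ℝ := fun n => if ((1:ℝ) / 2) ^ n ≤ 2 * r then
    ⋃ k ∈ Finset.range (16 ^ n), Icc (‖((((2 : ℝ) ^ n)⁻¹ : ℝ) : ℂ) * kp n k‖ - C / 128 ^ n)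
      (‖((((2 : ℝ) ^ n)⁻¹ : ℝ) : ℂ) * kp n k‖ + C / 128 ^ n) else ∅
  have hsub : radii l KK ∩ Ioo 0 r ⊆ ⋃ n, T n := by
    rintro _ ⟨⟨z, hz, rfl⟩, hz2⟩
    obtain ⟨w, ⟨n, k, hk, hw⟩, hzw⟩ := Metric.mem_thickening_iff.1 hz
    simp only [mem_Ioo] at hz2
    set lam : ℝ := ((2:ℝ) ^ n)⁻¹ with hlam
    have hlam0 : 0 < lam := by positivity
    have hwim : w.im = 1 / 128 ^ n := by
      have h1 : (w : ℂ).im = lam * (1 / 64 ^ n) := by rw [hw, im_ofReal_mul]; rfl
      rw [UpperHalfPlane.coe_im] at h1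
      rw [h1, hlam, ← one_div, one_div_mul_one_div, ← mul_pow]
      norm_num
    have hwre : lam ≤ (w : ℂ).re := by
      rw [hw, re_ofReal_mul]
      have : 1 ≤ (kp n k).re := by
        unfold kp; simp only
        have : (0:ℝ) ≤ ((k:ℝ) + 1 / 2) / 16 ^ n := by positivity
        linarith
      nlinarith
    have h1 : dist (z : ℂ) w ≤ C / 128 ^ n := by
      refine (UpperHalfPlane.dist_coe_le z w).trans ?_
      rw [hwim]
      have : Real.exp (dist z w) ≤ Real.exp l := Real.exp_le_exp.2 hzw.le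
      have h128 : (0:ℝ) < 1 / 128 ^ n := by positivity
      have e : C / 128 ^ n = 1 / 128 ^ n * C := by ring
      rw [e]
      apply mul_le_mul_of_nonneg_left _ h128.le
      rw [hC]; linarith
    have h2 : |‖(z:ℂ)‖ - ‖(w:ℂ)‖| ≤ C / 128 ^ n := by
      refine (abs_norm_sub_norm_le _ _).trans ?_
      rw [← dist_eq_norm]; exact h1
    have h3 : 1 / 128 ^ n < q ^ 2 := by
      rw [← hwim]
      refine lt_of_le_of_lt ?_ hrl
      refine (UpperHalfPlane.im_le_im_mul_exp_dist w z).trans ?_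
      have e1 : z.im ≤ r := by
        have : |(z:ℂ).im| ≤ ‖(z:ℂ)‖ := Complex.abs_im_le_norm _
        rw [UpperHalfPlane.coe_im, abs_of_pos z.im_pos] at this
        linarith [hz2.2]
      have e2 : Real.exp (dist w z) ≤ Real.exp l := by
        rw [dist_comm]; exact Real.exp_le_exp.2 hzw.le
      exact mul_le_mul e1 e2 (Real.exp_pos _).le hr.le
    have h4 : (1:ℝ) / 64 ^ n ≤ q := by
      have e : ((1:ℝ) / 64 ^ n) ^ 2 ≤ 1 / 128 ^ n := by
        rw [div_pow, one_pow, ← pow_mul, mul_comm, pow_mul]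
        apply one_div_le_one_div_of_le (by positivity)
        exact pow_le_pow_left₀ (by norm_num) (by norm_num) n
      have e2 : ((1:ℝ) / 64 ^ n) ^ 2 ≤ q ^ 2 := e.trans h3.le
      exact le_of_sq_le_sq e2 hq0.le
    have h5 : C / 128 ^ n ≤ lam / 2 := by
      have e : C / 128 ^ n = lam * (C * (1 / 64 ^ n)) := by
        have : (128:ℝ) ^ n = 2 ^ n * 64 ^ n := by rw [← mul_pow]; norm_num
        rw [this, hlam]; field_simp
      have e2 : C * (1 / 64 ^ n) ≤ 1 / 2 := by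
        calc C * (1 / 64 ^ n) ≤ C * q := mul_le_mul_of_nonneg_left h4 hC0.le
          _ = C / (2 * C + 2) := by rw [hq]; ring
          _ ≤ 1 / 2 := by rw [div_le_div_iff₀ (by positivity) (by norm_num)]; linarith
      rw [e]; nlinarith
    have h6 : ((1:ℝ) / 2) ^ n ≤ 2 * r := by
      have e : ((1:ℝ) / 2) ^ n = lam := by rw [hlam, one_div, inv_pow]
      have e2 : (w:ℂ).re ≤ ‖(w:ℂ)‖ := Complex.re_le_norm _
      have e3 := (abs_le.1 h2).1
      rw [e]
      linarith [hz2.2]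
    refine mem_iUnion.2 ⟨n, ?_⟩
    simp only [T]
    rw [if_pos h6]
    refine mem_iUnion₂.2 ⟨k, Finset.mem_range.2 hk, ?_⟩
    rw [← hw]
    have := abs_le.1 h2
    exact ⟨by linarith, by linarith⟩
  have hT : ∀ n, volume (T n) ≤ ENNReal.ofReal (8 * C * r ^ 2 * (1 / 2) ^ n) := by
    intro n
    simp only [T]
    split_ifs with h
    · refine (measure_biUnion_finset_le _ _).trans ?_
      simp only [Real.volume_Icc]
      have e1 : ∀ k ∈ Finset.range (16 ^ n), ENNReal.ofReal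
          (‖((((2 : ℝ) ^ n)⁻¹ : ℝ) : ℂ) * kp n k‖ + C / 128 ^ n -
            (‖((((2 : ℝ) ^ n)⁻¹ : ℝ) : ℂ) * kp n k‖ - C / 128 ^ n)) = ENNReal.ofReal (2 * C / 128 ^ n) := by
        intro k _
        congr 1; ring
      rw [Finset.sum_congr rfl e1, Finset.sum_const, Finset.card_range, nsmul_eq_mul]
      have e2 : ((16 ^ n : ℕ) : ℝ≥0∞) = ENNReal.ofReal (16 ^ n) := by
        rw [ENNReal.ofReal_pow (by norm_num)]
        push_cast
        norm_num
      rw [e2, ← ENNReal.ofReal_mul (by positivity)]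
      apply ENNReal.ofReal_le_ofReal
      have e3 : (16:ℝ) ^ n * (2 * C / 128 ^ n) = 2 * C * ((1 / 2) ^ n * (1 / 2) ^ n * (1 / 2) ^ n) := by
        have : (128:ℝ) ^ n = 16 ^ n * (2 ^ n * 2 ^ n * 2 ^ n) := by
          rw [← mul_pow, ← mul_pow, ← mul_pow]; norm_num
        rw [this, one_div_pow]
        field_simp
      rw [e3]
      set t : ℝ := (1 / 2) ^ n with ht
      have ht0 : 0 < t := by positivity
      have : t * t ≤ (2 * r) * (2 * r) := mul_le_mul h h ht0.le (by positivity)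
      have h7 : t * t * t ≤ (2 * r) * (2 * r) * t := mul_le_mul_of_nonneg_right this ht0.le
      nlinarith
    · simp
  have hvol : volume (radii l KK ∩ Ioo 0 r) ≤ ENNReal.ofReal (16 * C * r ^ 2) := by
    refine (measure_mono hsub).trans ((measure_iUnion_le _).trans ?_)
    refine (ENNReal.tsum_le_tsum hT).trans (le_of_eq ?_)
    have hs : Summable (fun n : ℕ => 8 * C * r ^ 2 * ((1:ℝ) / 2) ^ n) :=
      summable_geometric_two.mul_left _
    rw [← ENNReal.ofReal_tsum_of_nonneg (fun n => by positivity) hs, tsum_mul_left,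
      tsum_geometric_two]
    congr 1; ring
  exact ENNReal.toReal_le_of_le_ofReal (by positivity) hvol

theorem KK_thin {l : ℝ} (hl : 0 < l) :
    (fun r : ℝ => (volume (radii l KK ∩ Ioo 0 r)).toReal) =o[𝓝[>] 0] (fun r : ℝ => r) := by
  obtain ⟨C, hC, r₀, hr₀, h⟩ := radii_bound hl
  have h1 : (fun r : ℝ => (volume (radii l KK ∩ Ioo 0 r)).toReal) =O[𝓝[>] 0] (fun r : ℝ => r ^ 2) := by
    refine Asymptotics.IsBigO.of_bound C ?_
    filter_upwards [Ioo_mem_nhdsGT hr₀] with r hr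
    rw [Real.norm_eq_abs, abs_of_nonneg ENNReal.toReal_nonneg, Real.norm_eq_abs,
      abs_of_nonneg (sq_nonneg r)]
    exact h r hr.1 hr.2
  exact h1.trans_isLittleO ((Asymptotics.isLittleO_pow_id (by norm_num)).mono nhdsWithin_le_nhds)

lemma KK_acc : (0 : ℂ) ∈ closure (((↑) : ℍ → ℂ) '' KK) := by
  rw [Metric.mem_closure_iff]
  intro ε hε
  obtain ⟨n, hn⟩ := exists_pow_lt_of_lt_one (show 0 < ε / 3 by positivity) (by norm_num : (1:ℝ) / 2 < 1)
  have hKim : 0 < (((((2:ℝ) ^ n)⁻¹ : ℝ) : ℂ) * kp n 0).im := by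
    rw [im_ofReal_mul]; unfold kp; positivity
  refine ⟨((((2:ℝ) ^ n)⁻¹ : ℝ) : ℂ) * kp n 0, ⟨⟨_, hKim⟩, ⟨n, 0, by positivity, rfl⟩, rfl⟩, ?_⟩
  rw [dist_comm, dist_zero_right, norm_mul, Complex.norm_real, Real.norm_eq_abs, abs_of_pos (by positivity)]
  have h1 := kp_norm n 0 (by positivity)
  have h2 : ((2:ℝ) ^ n)⁻¹ = (1 / 2) ^ n := by rw [one_div, inv_pow]
  rw [h2]
  have h3 : (0:ℝ) < (1 / 2) ^ n := by positivity
  nlinarith

end Pool.Agent.H7.Forc
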